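import Pool.Agent.Y247.DAP.A

/-!
MP_7b119f_an, Q1 and Q2: the answer is negative. There is one countable metric space `M` all of whose
points are isolated such that for every `p` in `(0, 1]` the Lipschitz free `p`-space over `M` fails the
approximation property.

`M` consists of the points `(d i, 1 / (j + 1))`, `i ≤ j`, of `X × ℝ`, where `d` is a dense sequence in a
separable Banach space `X` failing the approximation property. `M` is not complete (for complete
discrete spaces the approximation property holds, see `CompleteDiscreteAP.lean`).
-/

set_option autoImplicit false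

open Pool.Agent.H548R3.PFree

namespace Pool.Agent.Results.MP_7b119f_an.DiscreteNoAP

/-- **MP_7b119f_an, Q1 and Q2.** A countable metric space `M` with isolated points only such that for
all `0 < p ≤ 1` the Lipschitz free `p`-space over `M` exists and fails the approximation property. -/
theorem result : ∃ (M : Type) (_ : MetricSpace M) (o : M), Countable M ∧
    (∀ x : M, ∃ r : ℝ, 0 < r ∧ ∀ y : M, dist y x < r → y = x) ∧ ∀ p : ℝ, 0 < p → p ≤ 1 →
    (∃ (Z : Type) (_ : NormedAddCommGroup Z) (_ : Module ℝ Z) (δ : M → Z),
      IsLipschitzFree p M o Z δ) ∧
    ∀ (Z : Type) [NormedAddCommGroup Z] [Module ℝ Z] (δ : M → Z),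
      IsLipschitzFree p M o Z δ → ¬ HasAP p Z :=
  Pool.Agent.Y247.DAP.main

end Pool.Agent.Results.MP_7b119f_an.DiscreteNoAP
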